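import Mathlib
import Pool.Agent.L5helper9.NkDefs

/-!
# The field generated over a number field by a root of a monic polynomial with bounded coefficients
-/

set_option autoImplicit false

namespace Pool.Agent.L5helper13.NfLow

open Module NumberField Polynomial
open Pool.Agent.L5helper9.Nk

section family

variable (L : Type) [Field L] [NumberField L]

/-- The discriminant of a `ℚ`-basis of integers is the square of the index times the discriminant
of the field; a prime at which an integral combination is divisible divides the index. -/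
lemma discr_index {ι : Type} [Fintype ι] [DecidableEq ι] (hn : finrank ℚ L = Fintype.card ι)
    (b : ι → 𝓞 L) (hb : Algebra.discr ℚ (fun i => (b i : L)) ≠ 0) :
    ∃ δ : ℤ, δ ≠ 0 ∧
      Algebra.discr ℚ (fun i => (b i : L)) = ((δ ^ 2 * NumberField.discr L : ℤ) : ℚ) ∧
      ∀ (p : ℕ), p.Prime → ∀ (v : ι → ℤ) (y : 𝓞 L), ∑ i, v i • b i = (p : ℤ) • y →
        (∃ i, ¬ (p : ℤ) ∣ v i) → (p : ℤ) ∣ δ := by
  classical
  have hcard : Fintype.card (Free.ChooseBasisIndex ℤ (𝓞 L)) = Fintype.card ι := by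
    rw [← Module.finrank_eq_card_chooseBasisIndex, RingOfIntegers.rank, hn]
  set e : Free.ChooseBasisIndex ℤ (𝓞 L) ≃ ι := Fintype.equivOfCardEq hcard with he
  set B : Basis ι ℚ L := (integralBasis L).reindex e with hB
  have hBd : Algebra.discr ℚ B = NumberField.discr L := by
    rw [NumberField.coe_discr, hB, Basis.coe_reindex, Algebra.discr_reindex]
  set M : Matrix ι ι ℤ := fun i j => (RingOfIntegers.basis L).repr (b j) (e.symm i)
    with hM
  have hMb : (fun i => (b i : L)) = Matrix.vecMul (B : ι → L)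
      ((M.map (fun x : ℤ => (x : ℚ))).map (algebraMap ℚ L)) := by
    funext j
    rw [Matrix.vecMul, dotProduct]
    have h1 := B.sum_repr (b j : L)
    rw [← h1]
    apply Finset.sum_congr rfl
    intro i _
    have h2 : B.repr (b j : L) i = ((RingOfIntegers.basis L).repr (b j) (e.symm i) : ℚ) := by
      rw [hB, Basis.repr_reindex_apply]
      have := integralBasis_repr_apply L (b j) (e.symm i)
      rw [this]
      simp
    rw [h2, Algebra.smul_def, mul_comm]
    simp [hM]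
  have hd : Algebra.discr ℚ (fun i => (b i : L)) = ((M.det ^ 2 * NumberField.discr L : ℤ) : ℚ) := by
    rw [hMb, Algebra.discr_of_matrix_vecMul, hBd]
    push_cast
    congr 2
  refine ⟨M.det, ?_, hd, ?_⟩
  · intro h0
    rw [h0] at hd
    exact hb (by rw [hd]; simp)
  · intro p hp v y hy hv
    have : Fact p.Prime := ⟨hp⟩
    have hMv : Matrix.mulVec M v = fun i => (p : ℤ) * (RingOfIntegers.basis L).repr y (e.symm i) := by
      funext i
      have h1 := congrArg (fun z => (RingOfIntegers.basis L).repr z (e.symm i)) hy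
      simp only [map_sum, map_smul, Finsupp.coe_finsetSum, Finset.sum_apply, Finsupp.smul_apply,
        smul_eq_mul] at h1
      rw [Matrix.mulVec, dotProduct, ← h1]
      apply Finset.sum_congr rfl
      intro j _
      rw [hM, mul_comm]
    have h2 : Matrix.mulVec (M.map (Int.castRingHom (ZMod p))) (fun i => ((v i : ℤ) : ZMod p)) = 0 := by
      funext i
      have h3 := congrFun hMv i
      have h4 := congrArg (Int.castRingHom (ZMod p)) h3
      rw [Matrix.mulVec, dotProduct] at h4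
      rw [Matrix.mulVec, dotProduct, Pi.zero_apply]
      rw [map_sum, map_mul] at h4
      simp only [map_mul, map_natCast, CharP.cast_eq_zero, zero_mul] at h4
      simpa using h4
    have h5 : (M.map (Int.castRingHom (ZMod p))).det = 0 := by
      rw [← Matrix.exists_mulVec_eq_zero_iff]
      refine ⟨fun i => ((v i : ℤ) : ZMod p), ?_, h2⟩
      obtain ⟨i, hi⟩ := hv
      intro h0
      apply hi
      rw [← ZMod.intCast_zmod_eq_zero_iff_dvd]
      exact congrFun h0 i
    have h6 : ((M.det : ℤ) : ZMod p) = 0 := by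
      have h7 := RingHom.map_det (Int.castRingHom (ZMod p)) M
      rw [RingHom.mapMatrix_apply, h5] at h7
      simpa using h7
    rwa [ZMod.intCast_zmod_eq_zero_iff_dvd] at h6

lemma discr_boundI {ι : Type} [Fintype ι] [DecidableEq ι] (hn : finrank ℚ L = Fintype.card ι)
    (b : ι → L) (c : ι → ℝ) (hb : ∀ j, ∀ φ : L →+* ℂ, ‖φ (b j)‖ ≤ c j) :
    |((Algebra.discr ℚ b : ℚ) : ℝ)| ≤ (((Fintype.card ι).factorial : ℝ) * ∏ j, c j) ^ 2 := by
  classical
  have hcard : Fintype.card ι = Fintype.card (L →ₐ[ℚ] ℂ) := by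
    rw [AlgHom.card, hn]
  have e : ι ≃ (L →ₐ[ℚ] ℂ) := Fintype.equivOfCardEq hcard
  have h1 := Algebra.discr_eq_det_embeddingsMatrixReindex_pow_two ℚ ℂ b e
  have hc : ∀ j, 0 ≤ c j := fun j => le_trans (norm_nonneg _) (hb j (e j).toRingHom)
  have h2 : ‖(Algebra.embeddingsMatrixReindex ℚ ℂ b e).det‖ ≤
      ((Fintype.card ι).factorial : ℝ) * ∏ j, c j := by
    rw [Matrix.det_apply]
    calc ‖∑ σ : Equiv.Perm ι, Equiv.Perm.sign σ •
            ∏ i, Algebra.embeddingsMatrixReindex ℚ ℂ b e (σ i) i‖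
        ≤ ∑ σ : Equiv.Perm ι, ‖Equiv.Perm.sign σ •
            ∏ i, Algebra.embeddingsMatrixReindex ℚ ℂ b e (σ i) i‖ := norm_sum_le _ _
      _ ≤ ∑ _σ : Equiv.Perm ι, ∏ j, c j := by
          apply Finset.sum_le_sum
          intro σ _
          have h3 : ‖Equiv.Perm.sign σ •
              ∏ i, Algebra.embeddingsMatrixReindex ℚ ℂ b e (σ i) i‖ =
              ‖∏ i, Algebra.embeddingsMatrixReindex ℚ ℂ b e (σ i) i‖ := by
            rcases Int.units_eq_one_or (Equiv.Perm.sign σ) with h | h <;> rw [h] <;> simp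
          rw [h3, norm_prod]
          have h4 : ∏ j, c j = ∏ i, c (σ i) := (Equiv.prod_comp σ c).symm
          rw [h4]
          apply Finset.prod_le_prod
          · intro i _
            exact norm_nonneg _
          · intro i _
            exact hb (σ i) (e i).toRingHom
      _ = ((Fintype.card ι).factorial : ℝ) * ∏ j, c j := by
          rw [Finset.sum_const, Finset.card_univ, Fintype.card_perm, nsmul_eq_mul]
  have h3 : |((Algebra.discr ℚ b : ℚ) : ℝ)| = ‖(Algebra.embeddingsMatrixReindex ℚ ℂ b e).det‖ ^ 2 := by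
    rw [← norm_pow, ← h1]
    rw [eq_ratCast]
    rw [← Complex.ofReal_ratCast, Complex.norm_real, Real.norm_eq_abs]
  rw [h3]
  exact pow_le_pow_left₀ (norm_nonneg _) h2 2

end family

/-- An element of `𝓞 K` outside `p 𝓞 K` which multiplies the kernel into `p 𝓞 K`. -/
lemma exists_mult {K : Type} [Field K] [NumberField K] {p : ℕ} (hp : p.Prime)
    (ψ : 𝓞 K →+* ZMod (p ^ 2)) :
    ∃ c : 𝓞 K, ¬ (p : 𝓞 K) ∣ c ∧ ∀ x : 𝓞 K,
      ZMod.castHom (dvd_pow_self p two_ne_zero) (ZMod p) (ψ x) = 0 → (p : 𝓞 K) ∣ c * x := by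
  classical
  have : Fact p.Prime := ⟨hp⟩
  set ψ1 : 𝓞 K →+* ZMod p := (ZMod.castHom (dvd_pow_self p two_ne_zero) (ZMod p)).comp ψ with hψ1
  set 𝔭 : Ideal (𝓞 K) := RingHom.ker ψ1 with h𝔭
  have h1 : 𝔭 ≠ ⊤ := RingHom.ker_ne_top ψ1
  have hp0 : (p : 𝓞 K) ≠ 0 := by exact_mod_cast hp.ne_zero
  have h2 : (p : 𝓞 K) ∈ 𝔭 := by
    rw [h𝔭, RingHom.mem_ker, map_natCast, CharP.cast_eq_zero]
  have h3 : 𝔭 ∣ Ideal.span {(p : 𝓞 K)} := by
    rw [Ideal.dvd_span_singleton]
    exact h2
  obtain ⟨𝔞, h𝔞⟩ := h3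
  have h4 : Ideal.span {(p : 𝓞 K)} ≤ 𝔞 := by
    rw [h𝔞]
    exact Ideal.mul_le_right
  have h5 : ¬ 𝔞 ≤ Ideal.span {(p : 𝓞 K)} := by
    intro h
    have h6 : 𝔞 = Ideal.span {(p : 𝓞 K)} := le_antisymm h h4
    have h7 : Ideal.span {(p : 𝓞 K)} ≠ ⊥ := by
      rw [Ne, Ideal.span_singleton_eq_bot]
      exact hp0
    rw [← h6] at h𝔞 h7
    have h8 : 𝔭 * 𝔞 = 1 * 𝔞 := by rw [one_mul, ← h𝔞]
    have h9 := mul_right_cancel₀ (b := 𝔞) h7 h8
    exact h1 (by rw [h9, Ideal.one_eq_top])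
  obtain ⟨c, hc1, hc2⟩ := SetLike.not_le_iff_exists.1 h5
  refine ⟨c, ?_, ?_⟩
  · rwa [Ideal.mem_span_singleton] at hc2
  · intro x hx
    have hx' : x ∈ 𝔭 := by
      rw [h𝔭, RingHom.mem_ker]
      exact hx
    have h10 : x * c ∈ 𝔭 * 𝔞 := Ideal.mul_mem_mul hx' hc1
    rw [← h𝔞, Ideal.mem_span_singleton] at h10
    rwa [mul_comm]

lemma root_boundC {n M t : ℕ} (hn : 1 ≤ n) (ht : 1 ≤ t) (hM : 1 ≤ M) (f : ℂ[X]) (hf : f.Monic)
    (hfn : f.natDegree = n)
    (hc : ∀ i < n, ‖f.coeff i‖ * (t : ℝ) ^ (2 * i) ≤ M * (t : ℝ) ^ (2 * n)) (z : ℂ)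
    (hz : f.eval z = 0) : ‖z‖ ≤ n * M * t ^ 2 := by
  by_contra hcon
  push Not at hcon
  have hn' : (1 : ℝ) ≤ n := by exact_mod_cast hn
  have ht' : (1 : ℝ) ≤ t := by exact_mod_cast ht
  have hM' : (1 : ℝ) ≤ M := by exact_mod_cast hM
  have hnM : (1 : ℝ) ≤ n * M := by nlinarith
  have ht2 : (t : ℝ) ^ 2 ≤ ‖z‖ := by
    have : (t : ℝ) ^ 2 ≤ n * M * t ^ 2 := by
      have h0 : (0 : ℝ) ≤ (t : ℝ) ^ 2 := by positivity
      nlinarith
    linarith
  have hzpos : 0 < ‖z‖ := lt_of_lt_of_le (by positivity) ht2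
  have hcoef : ∀ i < n, ‖f.coeff i‖ ≤ M * ((t : ℝ) ^ 2) ^ (n - i) := by
    intro i hi
    have h2 := hc i hi
    have h3 : (t : ℝ) ^ (2 * n) = ((t : ℝ) ^ 2) ^ (n - i) * (t : ℝ) ^ (2 * i) := by
      rw [← pow_mul, ← pow_add]
      congr 1
      omega
    rw [h3, ← mul_assoc] at h2
    exact le_of_mul_le_mul_right h2 (by positivity)
  have hsum : z ^ n = -∑ i ∈ Finset.range n, f.coeff i * z ^ i := by
    have h1 : f.eval z = ∑ i ∈ Finset.range (n + 1), f.coeff i * z ^ i := by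
      rw [eval_eq_sum_range' (n := n + 1) (by omega)]
    rw [hz, Finset.sum_range_succ] at h1
    have h2 : f.coeff n = 1 := by
      have := hf.coeff_natDegree
      rwa [hfn] at this
    rw [h2] at h1
    linear_combination -h1
  have hle : ‖z‖ ^ n ≤ ∑ i ∈ Finset.range n, ‖f.coeff i‖ * ‖z‖ ^ i := by
    rw [← norm_pow, hsum, norm_neg]
    refine (norm_sum_le _ _).trans (Finset.sum_le_sum fun i _ => ?_)
    rw [norm_mul, norm_pow]
  have hterm : ∀ i ∈ Finset.range n, (n : ℝ) * (‖f.coeff i‖ * ‖z‖ ^ i) < ‖z‖ ^ n := by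
    intro i hi
    rw [Finset.mem_range] at hi
    have h1 := hcoef i hi
    have h2 : ‖z‖ ^ n = ‖z‖ * ‖z‖ ^ (n - i - 1) * ‖z‖ ^ i := by
      rw [mul_assoc, ← pow_add, ← pow_succ']
      congr 1
      omega
    have h3 : (n : ℝ) * ‖f.coeff i‖ < ‖z‖ * ‖z‖ ^ (n - i - 1) := by
      calc (n : ℝ) * ‖f.coeff i‖ ≤ n * (M * ((t : ℝ) ^ 2) ^ (n - i)) := by
            apply mul_le_mul_of_nonneg_left h1 (by positivity)
        _ = (n * M * (t : ℝ) ^ 2) * ((t : ℝ) ^ 2) ^ (n - i - 1) := by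
            have : n - i = n - i - 1 + 1 := by omega
            conv_lhs => rw [this, pow_succ]
            ring
        _ ≤ (n * M * (t : ℝ) ^ 2) * ‖z‖ ^ (n - i - 1) := by
            apply mul_le_mul_of_nonneg_left _ (by positivity)
            exact pow_le_pow_left₀ (by positivity) ht2 _
        _ < ‖z‖ * ‖z‖ ^ (n - i - 1) := by
            apply mul_lt_mul_of_pos_right hcon (by positivity)
    rw [h2, ← mul_assoc]
    exact mul_lt_mul_of_pos_right h3 (by positivity)
  have h1 : ∑ i ∈ Finset.range n, (n : ℝ) * (‖f.coeff i‖ * ‖z‖ ^ i) <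
      ∑ _i ∈ Finset.range n, ‖z‖ ^ n :=
    Finset.sum_lt_sum_of_nonempty ⟨0, Finset.mem_range.2 (by omega)⟩ hterm
  rw [← Finset.mul_sum, Finset.sum_const, Finset.card_range, nsmul_eq_mul] at h1
  have h2 := mul_le_mul_of_nonneg_left hle (by positivity : (0 : ℝ) ≤ n)
  linarith

/-- The discriminant of the family `ω_j α ^ i` is divisible by the square of every prime `p` with
a double root modulo `p ^ 2` along a homomorphism `𝓞 K → ZMod (p ^ 2)`. -/
lemma dvd_index {K L : Type} [Field K] [NumberField K] [Field L] [NumberField L]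
    [Algebra (𝓞 K) (𝓞 L)] {n : ℕ} (hn : 1 ≤ n)
    (α : 𝓞 L) (f : (𝓞 K)[X]) (hf : f.Monic) (hfn : f.natDegree = n)
    (hroot : aeval α f = 0) {p : ℕ} (hp : p.Prime) (ψ : 𝓞 K →+* ZMod (p ^ 2)) (r : ℤ)
    (h1 : ev ψ r f = 0) (h2 : ev1 ψ r f.derivative = 0) :
    ∃ (v : Free.ChooseBasisIndex ℤ (𝓞 K) × Fin n → ℤ) (y : 𝓞 L),
      ∑ i, v i • (algebraMap (𝓞 K) (𝓞 L) (RingOfIntegers.basis K i.1) * α ^ (i.2 : ℕ)) =
        (p : ℤ) • y ∧ ∃ i, ¬ (p : ℤ) ∣ v i := by
  classical
  obtain ⟨k, rfl⟩ : ∃ k, n = k + 1 := ⟨n - 1, by omega⟩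
  obtain ⟨c, hc1, hc2⟩ := exists_mult hp ψ
  have hpL : ((p : ℕ) : L) ≠ 0 := by exact_mod_cast hp.ne_zero
  set g : (𝓞 K)[X] := f /ₘ (X - C (r : 𝓞 K)) with hg
  set h : (𝓞 K)[X] := g /ₘ (X - C (r : 𝓞 K)) with hh
  have hfg : f = (X - C (r : 𝓞 K)) * g + C (f.eval (r : 𝓞 K)) := by
    have := modByMonic_add_div f (X - C (r : 𝓞 K))
    rw [modByMonic_X_sub_C_eq_C_eval] at this
    rw [hg]
    rw [add_comm] at this
    exact this.symm
  have hgh : g = (X - C (r : 𝓞 K)) * h + C (g.eval (r : 𝓞 K)) := by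
    have := modByMonic_add_div g (X - C (r : 𝓞 K))
    rw [modByMonic_X_sub_C_eq_C_eval] at this
    rw [hh]
    rw [add_comm] at this
    exact this.symm
  have hgr : g.eval (r : 𝓞 K) = f.derivative.eval (r : 𝓞 K) := by
    conv_rhs => rw [hfg]
    rw [derivative_add, derivative_C, add_zero, derivative_mul, eval_add, eval_mul, eval_mul]
    simp
  have hgdeg : g.natDegree = k := by
    rw [hg, natDegree_divByMonic _ (monic_X_sub_C (r : 𝓞 K)), hfn, natDegree_X_sub_C]
    omega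
  have hgm : g.Monic := by
    have h3 : (f - C (f.eval (r : 𝓞 K))).Monic := by
      apply hf.sub_of_left
      apply lt_of_le_of_lt degree_C_le
      rw [degree_eq_natDegree hf.ne_zero, hfn]
      exact_mod_cast Nat.succ_pos k
    have h4 : f - C (f.eval (r : 𝓞 K)) = (X - C (r : 𝓞 K)) * g := by
      conv_lhs => rw [hfg]
      simp
    rw [h4] at h3
    exact (monic_X_sub_C (r : 𝓞 K)).of_mul_monic_left h3
  -- values
  have hψ : ∀ A : (𝓞 K)[X], ψ (A.eval (r : 𝓞 K)) = ev ψ r A := by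
    intro A
    rw [ev, ← map_intCast ψ r, eval₂_at_apply]
  have hf0 : ψ (f.eval (r : 𝓞 K)) = 0 := by rw [hψ, h1]
  have hg0 : ZMod.castHom (dvd_pow_self p two_ne_zero) (ZMod p) (ψ (g.eval (r : 𝓞 K))) = 0 := by
    rw [hgr, hψ]
    exact h2
  obtain ⟨w, hw⟩ := hc2 _ hg0
  obtain ⟨x', hx'⟩ := hc2 (f.eval (r : 𝓞 K)) (by rw [hf0, map_zero])
  have hx0 : ZMod.castHom (dvd_pow_self p two_ne_zero) (ZMod p) (ψ x') = 0 := by
    have h3 := congrArg ψ hx'
    rw [map_mul, hf0, mul_zero, map_mul, map_natCast] at h3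
    obtain ⟨a, ha⟩ : ∃ a, a = ψ x' := ⟨_, rfl⟩
    rw [← ha] at h3 ⊢
    have hne : NeZero (p ^ 2) := ⟨pow_ne_zero 2 hp.ne_zero⟩
    have h4 : ((p * a.val : ℕ) : ZMod (p ^ 2)) = 0 := by
      rw [Nat.cast_mul, ZMod.natCast_zmod_val]
      exact h3.symm
    rw [ZMod.natCast_eq_zero_iff] at h4
    have h4' : p * p ∣ p * a.val := by
      rw [← pow_two]
      exact h4
    have h5 : p ∣ a.val := Nat.dvd_of_mul_dvd_mul_left hp.pos h4'
    rw [← ZMod.natCast_zmod_val a, map_natCast, ZMod.natCast_eq_zero_iff]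
    exact h5
  obtain ⟨u, hu⟩ := hc2 _ hx0
  have hcu : c ^ 2 * f.eval (r : 𝓞 K) = (p : 𝓞 K) ^ 2 * u := by
    linear_combination c * hx' + (p : 𝓞 K) * hu
  set ι : 𝓞 K →+* 𝓞 L := algebraMap (𝓞 K) (𝓞 L) with hι
  have hA1 : (α - r) * aeval α g = -ι (f.eval (r : 𝓞 K)) := by
    have h3 := congrArg (aeval α) hfg
    rw [hroot, map_add, map_mul, map_sub, aeval_X, aeval_C, aeval_C] at h3
    rw [← hι, map_intCast] at h3
    linear_combination -h3
  have hA2 : aeval α g = (α - r) * aeval α h + ι (g.eval (r : 𝓞 K)) := by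
    have h3 := congrArg (aeval α) hgh
    rw [map_add, map_mul, map_sub, aeval_X, aeval_C, aeval_C] at h3
    rw [← hι, map_intCast] at h3
    exact h3
  have hsq : (aeval α g) ^ 2 = -ι (f.eval (r : 𝓞 K)) * aeval α h +
        ι (g.eval (r : 𝓞 K)) * aeval α g := by
      linear_combination (aeval α h) * hA1 + (aeval α g) * hA2
  -- the element `γ = c g(α) / p`
  obtain ⟨G, hG⟩ : ∃ G : 𝓞 L, G = ι c * aeval α g := ⟨_, rfl⟩
  obtain ⟨U, hU⟩ : ∃ U : 𝓞 L, U = ι u * aeval α h := ⟨_, rfl⟩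
  set γ : L := (G : L) / ((p : ℕ) : L) with hγ
  have hιw : ι c * ι (g.eval (r : 𝓞 K)) = (p : 𝓞 L) * ι w := by
    rw [← map_mul, hw, map_mul, map_natCast]
  have hιu : ι c ^ 2 * ι (f.eval (r : 𝓞 K)) = (p : 𝓞 L) ^ 2 * ι u := by
    rw [← map_pow, ← map_mul, hcu, map_mul, map_pow, map_natCast]
  have hsq2 : G ^ 2 = (p : 𝓞 L) * ι w * G - (p : 𝓞 L) ^ 2 * U := by
    rw [hG, hU]
    linear_combination (ι c) ^ 2 * hsq + (ι c * aeval α g) * hιw - aeval α h * hιu
  have hγ2 : γ ^ 2 = ((ι w : 𝓞 L) : L) * γ - (U : L) := by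
    have h3 := congrArg (algebraMap (𝓞 L) L) hsq2
    simp only [map_sub, map_pow, map_mul, map_natCast] at h3
    rw [hγ, div_pow, h3]
    field_simp
  have hγint : IsIntegral ℤ γ := by
    have h3 : IsIntegral (𝓞 L) γ := by
      refine ⟨X ^ 2 - (C (ι w : 𝓞 L) * X - C U), ?_, ?_⟩
      · apply Monic.sub_of_left (monic_X_pow 2)
        rw [degree_X_pow]
        refine lt_of_le_of_lt (degree_sub_le _ _) ?_
        rw [max_lt_iff]
        constructor
        · refine lt_of_le_of_lt (degree_C_mul_X_le _) ?_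
          norm_num
        · exact lt_of_le_of_lt degree_C_le (by norm_num)
      · rw [eval₂_sub, eval₂_X_pow, eval₂_sub, eval₂_mul, eval₂_C, eval₂_X, eval₂_C]
        rw [hγ2]
        ring
    exact isIntegral_trans γ h3
  set y : 𝓞 L := ⟨γ, hγint⟩ with hy
  have hpy : (p : 𝓞 L) * y = ι c * aeval α g := by
    rw [← hG]
    apply FaithfulSMul.algebraMap_injective (𝓞 L) L
    rw [map_mul, map_natCast]
    change (p : L) * γ = _
    rw [hγ]
    field_simp
  refine ⟨fun i => (RingOfIntegers.basis K).repr (c * g.coeff i.2) i.1, y, ?_, ?_⟩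
  · have h3 : ∀ a : 𝓞 K, ι a = ∑ j, (RingOfIntegers.basis K).repr a j •
        ι (RingOfIntegers.basis K j) := by
      intro a
      conv_lhs => rw [← (RingOfIntegers.basis K).sum_repr a]
      rw [map_sum]
      apply Finset.sum_congr rfl
      intro j _
      rw [map_zsmul]
    rw [zsmul_eq_mul, Int.cast_natCast, hpy, aeval_eq_sum_range' (n := k + 1) (by omega),
      ← Fin.sum_univ_eq_sum_range (fun i => g.coeff i • α ^ i), Finset.mul_sum,
      Fintype.sum_prod_type_right]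
    apply Finset.sum_congr rfl
    intro i _
    rw [Algebra.smul_def, ← hι, ← mul_assoc, ← map_mul, h3 (c * g.coeff i), Finset.sum_mul]
    apply Finset.sum_congr rfl
    intro j _
    simp only [zsmul_eq_mul]
    ring
  · by_contra hcon
    push Not at hcon
    apply hc1
    have h6 : g.coeff k = 1 := by
      have := hgm.coeff_natDegree
      rwa [hgdeg] at this
    choose q hq using fun j => hcon (j, Fin.last k)
    refine ⟨∑ j, q j • RingOfIntegers.basis K j, ?_⟩
    rw [Finset.mul_sum]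
    conv_lhs => rw [← (RingOfIntegers.basis K).sum_repr c]
    apply Finset.sum_congr rfl
    intro j _
    have h7 := hq j
    simp only [Fin.val_last, h6, mul_one] at h7
    rw [h7]
    simp only [zsmul_eq_mul]
    push_cast
    ring

open scoped Classical in
/-- the abstract version -/
lemma core (K L : Type) [Field K] [NumberField K] [Field L] [NumberField L] [Algebra K L] {n : ℕ}
    (hn : 1 ≤ n) (hfin : finrank K L = n) (a : L) (haint : IsIntegral ℤ a)
    (f : (𝓞 K)[X]) (hf : f.Monic) (hfn : f.natDegree = n)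
    (hroot : aeval a (f.map (algebraMap (𝓞 K) K)) = 0) (hmin : (minpoly K a).natDegree = n)
    (B : ℝ) (hbd : ∀ φ : L →+* ℂ, ‖φ a‖ ≤ B) :
    ∃ D : ℤ, D ≠ 0 ∧
      (|D| : ℝ) ≤ (((finrank ℚ K * n).factorial : ℝ) *
        (∏ j, house (RingOfIntegers.basis K j : K)) ^ n) ^ 2 * B ^ (finrank ℚ K * (n * (n - 1))) ∧
      ∀ (p : ℕ) (ψ : 𝓞 K →+* ZMod (p ^ 2)) (r : ℤ), p.Prime → ev ψ r f = 0 →
        ev1 ψ r f.derivative = 0 → (p : ℤ) ^ 2 ∣ D ∧
          |NumberField.discr L| * (p : ℤ) ^ 2 ≤ |D| := by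
  set α : 𝓞 L := ⟨a, haint⟩ with hα
  have hαa : (α : L) = a := rfl
  have : FiniteDimensional K L := FiniteDimensional.of_finrank_pos (by omega)
  have hB0 : 0 ≤ B := by
    obtain ⟨φ⟩ : Nonempty (L →+* ℂ) := inferInstance
    exact (norm_nonneg _).trans (hbd φ)
  -- the basis
  have hli : LinearIndependent K (fun i : Fin n => a ^ (i : ℕ)) := by
    have h1 := linearIndependent_pow (K := K) a
    subst hmin
    exact h1
  have hne : Nonempty (Fin n) := ⟨⟨0, by omega⟩⟩
  set pb : Basis (Fin n) K L := basisOfLinearIndependentOfCardEqFinrank hli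
    (by rw [Fintype.card_fin, hfin]) with hpb
  have hpbi : ∀ i : Fin n, pb i = a ^ (i : ℕ) := by
    intro i
    rw [hpb, coe_basisOfLinearIndependentOfCardEqFinrank]
  set bb : Basis (Free.ChooseBasisIndex ℤ (𝓞 K) × Fin n) ℚ L :=
    (integralBasis K).smulTower pb with hbb
  have hcard : finrank ℚ L = Fintype.card (Free.ChooseBasisIndex ℤ (𝓞 K) × Fin n) :=
    Module.finrank_eq_card_basis bb
  have hcardK : Fintype.card (Free.ChooseBasisIndex ℤ (𝓞 K)) = finrank ℚ K :=
    (Module.finrank_eq_card_basis (integralBasis K)).symm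
  have hcard2 : Fintype.card (Free.ChooseBasisIndex ℤ (𝓞 K) × Fin n) = finrank ℚ K * n := by
    rw [Fintype.card_prod, hcardK, Fintype.card_fin]
  set b : Free.ChooseBasisIndex ℤ (𝓞 K) × Fin n → 𝓞 L :=
    fun i => algebraMap (𝓞 K) (𝓞 L) (RingOfIntegers.basis K i.1) * α ^ (i.2 : ℕ) with hb
  have hbL : ∀ i, (b i : L) = algebraMap K L (RingOfIntegers.basis K i.1 : K) * a ^ (i.2 : ℕ) := by
    intro i
    rw [hb]
    push_cast
    rfl
  have hbbb : (fun i => (b i : L)) = bb := by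
    funext i
    rw [hbL, hbb, Basis.smulTower_apply, hpbi, Algebra.smul_def, integralBasis_apply]
  have hdisc0 : Algebra.discr ℚ (fun i => (b i : L)) ≠ 0 := by
    rw [hbbb]
    exact Algebra.discr_not_zero_of_basis ℚ bb
  obtain ⟨δ, hδ0, hδ1, hδ2⟩ := discr_index L hcard b hdisc0
  refine ⟨δ ^ 2 * NumberField.discr L, ?_, ?_, ?_⟩
  · exact mul_ne_zero (pow_ne_zero 2 hδ0) (NumberField.discr_ne_zero L)
  · have h1 := discr_boundI L hcard (fun i => (b i : L))
      (fun i => house (RingOfIntegers.basis K i.1 : K) * B ^ (i.2 : ℕ)) (by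
        intro i φ
        rw [hbL, map_mul, map_pow, norm_mul, norm_pow]
        apply mul_le_mul
        · exact norm_embedding_le_house _ (φ.comp (algebraMap K L))
        · exact pow_le_pow_left₀ (norm_nonneg _) (hbd φ) _
        · positivity
        · exact house_nonneg _)
    rw [hδ1, hcard2] at h1
    have h2 : ∏ i : Free.ChooseBasisIndex ℤ (𝓞 K) × Fin n,
        house (RingOfIntegers.basis K i.1 : K) * B ^ (i.2 : ℕ) =
        (∏ j, house (RingOfIntegers.basis K j : K)) ^ n * (B ^ (n * (n - 1) / 2)) ^ finrank ℚ K := by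
      rw [Finset.prod_mul_distrib, Fintype.prod_prod_type, Fintype.prod_prod_type]
      simp only [Finset.prod_const, Finset.card_univ, Fintype.card_fin]
      rw [Finset.prod_pow, Finset.prod_pow_eq_pow_sum, Fin.sum_univ_eq_sum_range (fun i => i),
        Finset.sum_range_id, hcardK]
    rw [h2] at h1
    have h3 : ((finrank ℚ K * n).factorial : ℝ) * ((∏ j, house (RingOfIntegers.basis K j : K)) ^ n *
        (B ^ (n * (n - 1) / 2)) ^ finrank ℚ K) =
        ((finrank ℚ K * n).factorial : ℝ) * (∏ j, house (RingOfIntegers.basis K j : K)) ^ n *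
        (B ^ (n * (n - 1) / 2)) ^ finrank ℚ K := by ring
    rw [h3, mul_pow] at h1
    have h4 : ((B ^ (n * (n - 1) / 2)) ^ finrank ℚ K) ^ 2 = B ^ (finrank ℚ K * (n * (n - 1))) := by
      rw [← pow_mul, ← pow_mul]
      congr 1
      have h5 : n * (n - 1) / 2 * 2 = n * (n - 1) := by
        apply Nat.div_mul_cancel
        obtain ⟨k, rfl⟩ : ∃ k, n = k + 1 := ⟨n - 1, by omega⟩
        rw [Nat.add_sub_cancel, mul_comm]
        exact (Nat.even_mul_succ_self k).two_dvd
      calc n * (n - 1) / 2 * (finrank ℚ K * 2) = finrank ℚ K * (n * (n - 1) / 2 * 2) := by ring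
        _ = _ := by rw [h5]
    rw [h4] at h1
    exact_mod_cast h1
  · intro p ψ r hp h1 h2
    have hroot' : aeval α f = 0 := by
      apply FaithfulSMul.algebraMap_injective (𝓞 L) L
      rw [map_zero, ← aeval_algebraMap_apply, ← hroot, aeval_map_algebraMap]
      rfl
    obtain ⟨v, y, hy, hv⟩ := dvd_index hn α f hf hfn hroot' hp ψ r h1 h2
    obtain ⟨e, he⟩ := hδ2 p hp v y hy hv
    have he0 : e ≠ 0 := by
      rintro rfl
      exact hδ0 (by rw [he, mul_zero])
    have h3 : δ ^ 2 * NumberField.discr L = (p : ℤ) ^ 2 * (e ^ 2 * NumberField.discr L) := by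
      rw [he]
      ring
    rw [h3]
    refine ⟨Dvd.intro _ rfl, ?_⟩
    rw [abs_mul, abs_mul, abs_pow, abs_pow, sq_abs, sq_abs, mul_comm]
    have h5 : 1 ≤ e ^ 2 := by
      have := Int.one_le_abs he0
      have h6 := one_le_pow₀ this (n := 2)
      rwa [sq_abs] at h6
    have h6 : 0 ≤ (p : ℤ) ^ 2 := by positivity
    have h7 : |NumberField.discr L| ≤ e ^ 2 * |NumberField.discr L| := by
      nlinarith [abs_nonneg (NumberField.discr L)]
    exact mul_le_mul_of_nonneg_left h7 h6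

theorem field_factsK (K : Type) [Field K] [NumberField K] (n : ℕ) (hn : 1 ≤ n) :
    ∃ C : ℝ, 1 ≤ C ∧ ∀ (M t : ℕ), 1 ≤ t → 1 ≤ M → ∀ f : (𝓞 K)[X], f.Monic → f.natDegree = n →
      Irreducible f →
      (∀ i < n, house (f.coeff i : K) * (t : ℝ) ^ (2 * i) ≤ M * (t : ℝ) ^ (2 * n)) →
      ∃ α : AlgebraicClosure K, aeval α f = 0 ∧ minpoly K α = f.map (algebraMap (𝓞 K) K) ∧
        IsIntegral ℤ α ∧ finrank K (IntermediateField.adjoin K {α}) = n ∧
        (∀ φ : IntermediateField.adjoin K {α} →+* ℂ,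
          ‖φ (IntermediateField.AdjoinSimple.gen K α)‖ ≤ n * M * t ^ 2) ∧
        ∃ D : ℤ, D ≠ 0 ∧ (|D| : ℝ) ≤ C * (n * M * t ^ 2) ^ (finrank ℚ K * (n * (n - 1))) ∧
          ∀ (p : ℕ) (ψ : 𝓞 K →+* ZMod (p ^ 2)) (r : ℤ), p.Prime → ev ψ r f = 0 →
            ev1 ψ r f.derivative = 0 → (p : ℤ) ^ 2 ∣ D ∧
            ∀ h : NumberField (IntermediateField.adjoin K {α}),
              |@NumberField.discr (IntermediateField.adjoin K {α}) _ h| * (p : ℤ) ^ 2 ≤ |D| := by
  set C0 : ℝ := (((finrank ℚ K * n).factorial : ℝ) *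
    (∏ j, house (RingOfIntegers.basis K j : K)) ^ n) ^ 2 with hC0
  refine ⟨max 1 C0, le_max_left _ _, ?_⟩
  intro M t ht hM f hf hfn hirr hc
  obtain ⟨α, hα⟩ : ∃ α : AlgebraicClosure K, aeval α f = 0 := by
    have h1 : (f.map (algebraMap (𝓞 K) (AlgebraicClosure K))).degree ≠ 0 := by
      rw [hf.degree_map, degree_eq_natDegree hf.ne_zero, hfn]
      exact_mod_cast (by omega : n ≠ 0)
    obtain ⟨α, hα⟩ := IsAlgClosed.exists_root _ h1
    refine ⟨α, ?_⟩
    rwa [IsRoot.def, eval_map_algebraMap] at hα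
  have hintO : IsIntegral (𝓞 K) α := ⟨f, hf, by rwa [← aeval_def]⟩
  have hint : IsIntegral ℤ α := isIntegral_trans α hintO
  have hfmap : minpoly K α = f.map (algebraMap (𝓞 K) K) := by
    symm
    apply minpoly.eq_of_irreducible_of_monic
    · exact (hf.irreducible_iff_irreducible_map_fraction_map).1 hirr
    · rw [aeval_map_algebraMap]
      exact hα
    · exact hf.map _
  have hαK : IsIntegral K α := hint.tower_top
  refine ⟨α, hα, hfmap, hint, ?_⟩
  set L := IntermediateField.adjoin K {α} with hL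
  have hfin : finrank K L = n := by
    rw [hL, IntermediateField.adjoin.finrank hαK, hfmap, hf.natDegree_map, hfn]
  have hfd : FiniteDimensional K L := IntermediateField.adjoin.finiteDimensional hαK
  have hnf : NumberField L :=
    { to_charZero := charZero_of_injective_algebraMap (algebraMap K L).injective
      to_finiteDimensional := FiniteDimensional.trans ℚ K L }
  set a : L := IntermediateField.AdjoinSimple.gen K α with ha
  have haα : algebraMap L (AlgebraicClosure K) a = α := IntermediateField.AdjoinSimple.algebraMap_gen K α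
  have haint : IsIntegral ℤ a := by
    rw [← isIntegral_algebraMap_iff (algebraMap L (AlgebraicClosure K)).injective, haα]
    exact hint
  have hamin : minpoly K a = f.map (algebraMap (𝓞 K) K) := by
    rw [← hfmap, ← haα]
    exact (minpoly.algebraMap_eq (algebraMap L (AlgebraicClosure K)).injective a).symm
  have haf : aeval a (f.map (algebraMap (𝓞 K) K)) = 0 := by
    rw [← hamin]
    exact minpoly.aeval K a
  have hbd : ∀ φ : L →+* ℂ, ‖φ a‖ ≤ n * M * t ^ 2 := by
    intro φ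
    set σ : K →+* ℂ := φ.comp (algebraMap K L) with hσ
    have hFm : ((f.map (algebraMap (𝓞 K) K)).map σ).Monic := (hf.map _).map _
    apply root_boundC hn ht hM ((f.map (algebraMap (𝓞 K) K)).map σ) hFm
    · rw [(hf.map _).natDegree_map, hf.natDegree_map, hfn]
    · intro i hi
      rw [coeff_map, coeff_map]
      refine le_trans ?_ (hc i hi)
      apply mul_le_mul_of_nonneg_right (norm_embedding_le_house _ σ)
      positivity
    · have h1 : φ (aeval a (f.map (algebraMap (𝓞 K) K))) = 0 := by rw [haf, map_zero]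
      rw [aeval_def, hom_eval₂] at h1
      rw [eval_map]
      exact h1
  refine ⟨hfin, hbd, ?_⟩
  obtain ⟨D, hD0, hD1, hD2⟩ := core K L hn hfin a haint f hf hfn haf
    (by rw [hamin, hf.natDegree_map, hfn]) (n * M * t ^ 2) hbd
  refine ⟨D, hD0, ?_, ?_⟩
  · refine hD1.trans ?_
    apply mul_le_mul_of_nonneg_right (le_max_right _ _)
    positivity
  · intro p ψ r hp h1 h2
    obtain ⟨h3, h4⟩ := hD2 p ψ r hp h1 h2
    exact ⟨h3, fun h => h4⟩

end Pool.Agent.L5helper13.NfLow
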